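import Mathlib
import Pool.Agent.H.MP_0a3467_an.A

set_option autoImplicit false

open MeasureTheory Filter

namespace Pool.Agent.Results.MP_0a3467_an.NoRec

open Pool.Agent.H.MP_0a3467_an

theorem result (l : ℕ) (hl : 2 ≤ l) :
    ∃ (X : Type) (_ : MeasurableSpace X) (_ : StandardBorelSpace X) (μ : Measure X)
      (_ : IsProbabilityMeasure μ) (T : Fin (l + 1) → ℕ → X ≃ᵐ X) (A : Set X),
      (∀ x, μ {x} = 0) ∧
      (∀ j n, 1 ≤ n → MeasurePreserving (T j n) μ μ) ∧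
      (∀ j x, T j 1 x = x) ∧
      (∀ j m n, 1 ≤ m → 1 ≤ n → ∀ x, T j (m * n) x = T j m (T j n x)) ∧
      MeasurableSet A ∧ 0 < μ A ∧
      (∀ m n : ℕ, 1 ≤ m → 1 ≤ n → ⋂ j : Fin (l + 1), T j (m + j * n) ⁻¹' A = ∅) ∧
      liminf (fun N : ℕ => (∑ m ∈ Finset.Icc 1 N, ∑ n ∈ Finset.Icc 1 N,
        μ.real (⋂ j : Fin (l + 1), T j (m + j * n) ⁻¹' A)) / (N : ℝ) ^ 2) atTop = 0 := by
  let a : Fin (l + 1) → ℝ := fun j => if (j : ℕ) = 0 then 0 else 1
  let c : Fin (l + 1) → Om := fun j => if (j : ℕ) = 2 then c1 else fun _ => false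
  have hE : ∀ m n : ℕ, 1 ≤ m → 1 ≤ n →
      ⋂ j : Fin (l + 1), fe (c j) (a j * Real.logb 4 ((m + j * n : ℕ) : ℝ)) ⁻¹' A = ∅ := by
    intro m n hm hn
    refine Set.eq_empty_of_forall_notMem fun p hp => ?_
    rw [Set.mem_iInter] at hp
    have h0 := hp ⟨0, by omega⟩
    have h1 := hp ⟨1, by omega⟩
    have h2 := hp ⟨2, by omega⟩
    obtain ⟨l1, l2, l3⟩ := logs m n hm hn
    simp only [a, c, Set.mem_preimage, fe_apply] at h0 h1 h2
    norm_num [fl_zero] at h0 h1 h2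
    refine key _ _ l1 l2 l3 p h0 ?_ ?_
    · simpa using h1
    · simpa using h2
  refine ⟨X, inferInstance, inferInstance, mu, inferInstance,
    fun j n => fe (c j) (a j * Real.logb 4 n), A, mu_single, fun j n _ => fl_mp _ _,
    fun j x => ?_, fun j m n hm hn x => ?_, A_meas, A_pos, hE, ?_⟩
  · simp [fe_apply, fl_zero]
  · have hm' : (m : ℝ) ≠ 0 := by positivity
    have hn' : (n : ℝ) ≠ 0 := by positivity
    simp only [fe_apply, fl_add, Nat.cast_mul, Real.logb_mul hm' hn', mul_add]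
  · have : (fun N : ℕ => (∑ m ∈ Finset.Icc 1 N, ∑ n ∈ Finset.Icc 1 N,
        mu.real (⋂ j : Fin (l + 1),
          fe (c j) (a j * Real.logb 4 ((m + j * n : ℕ) : ℝ)) ⁻¹' A)) / (N : ℝ) ^ 2) =
        fun _ => 0 := by
      funext N
      rw [Finset.sum_eq_zero, zero_div]
      intro m hm
      refine Finset.sum_eq_zero fun n hn => ?_
      rw [hE m n (Finset.mem_Icc.1 hm).1 (Finset.mem_Icc.1 hn).1]
      simp
    rw [this, liminf_const]

end Pool.Agent.Results.MP_0a3467_an.NoRec
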